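import Pool.Agent.H770.SN.Stm

/-!
# SN9 (project SN of helper770): the unconditional case
-/

set_option autoImplicit false

open MeasureTheory Set Function
open scoped ENNReal

namespace Pool.Agent.H412.SN9

open Pool.Agent.H770.SN

theorem Rf_Rf {n : ℕ} (i : Fin n) (x : Fin n → ℝ) : Rf i (Rf i x) = x := by
  unfold Rf
  rw [update_self, neg_neg, update_idem, update_eq_self]

theorem Rf_mem {n : ℕ} {T : Set (Fin n → ℝ)} (hT : Unc T) (i : Fin n) (x : Fin n → ℝ) : Rf i x ∈ T ↔ x ∈ T :=
  ⟨fun h => by
    have := hT i _ h
    rwa [Rf_Rf] at this, fun h => hT i x h⟩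

theorem Rf_mul {n : ℕ} (i : Fin n) (x y : Fin n → ℝ) (j : Fin n) : x j * Rf i y j = Rf i x j * y j := by
  unfold Rf
  by_cases h : j = i
  · subst h
    rw [update_self, update_self]
    ring
  · rw [update_of_ne h, update_of_ne h]

theorem unc_Pol {n : ℕ} {K : Set (Fin n → ℝ)} (hK : Unc K) : Unc (Pol K) := by
  intro i y hy x hx
  have h1 := hy (Rf i x) (hK i x hx)
  rwa [Finset.sum_congr rfl fun j _ => Rf_mul i x y j]

theorem unc_Bal (n : ℕ) : Unc (Bal n) := by
  intro i x hx
  show ∑ j, Rf i x j ^ 2 ≤ 1
  have h1 : ∀ j, Rf i x j ^ 2 = x j ^ 2 := by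
    intro j
    unfold Rf
    by_cases h : j = i
    · subst h
      rw [update_self]
      ring
    · rw [update_of_ne h]
  rw [Finset.sum_congr rfl fun j _ => h1 j]
  exact hx

theorem unc_inter {n : ℕ} {A B : Set (Fin n → ℝ)} (hA : Unc A) (hB : Unc B) : Unc (A ∩ B) :=
  fun i x hx => ⟨hA i x hx.1, hB i x hx.2⟩

theorem box {n : ℕ} {T : Set (Fin n → ℝ)} (hT : Convex ℝ T) (hU : Unc T) {w z : Fin n → ℝ} (hw : w ∈ T)
    (hz : ∀ i, |z i| ≤ w i) : z ∈ T := by
  classical
  have key : ∀ s : Finset (Fin n), (fun i => if i ∈ s then z i else w i) ∈ T := by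
    intro s
    induction s using Finset.induction_on with
    | empty => simpa using hw
    | insert a s ha ih =>
      set p : Fin n → ℝ := fun i => if i ∈ s then z i else w i with hp
      have hpa : p a = w a := if_neg ha
      have hR := hU a p ih
      have hpos : 0 ≤ w a := (abs_nonneg _).trans (hz a)
      have heq : (fun i => if i ∈ insert a s then z i else w i) = update p a (z a) := by
        funext i
        by_cases h : i = a
        · subst h
          rw [update_self, if_pos (Finset.mem_insert_self _ _)]
        · rw [update_of_ne h]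
          simp only [hp, Finset.mem_insert, h, false_or]
      rw [heq]
      rcases hpos.eq_or_lt with h0 | h0
      · have h1 := hz a
        rw [← h0] at h1
        have hza : z a = p a := by
          rw [hpa, ← h0]
          exact abs_eq_zero.1 (le_antisymm h1 (abs_nonneg _))
        rw [hza, update_eq_self]
        exact ih
      · obtain ⟨h1, h2⟩ := abs_le.1 (hz a)
        have hl : 0 ≤ (w a + z a) / (2 * w a) := div_nonneg (by linarith) (by linarith)
        have hm : 0 ≤ (w a - z a) / (2 * w a) := div_nonneg (by linarith) (by linarith)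
        have hs : (w a + z a) / (2 * w a) + (w a - z a) / (2 * w a) = 1 := by
          field_simp
          ring
        have h3 := hT ih hR hl hm hs
        have h4 : ((w a + z a) / (2 * w a)) • p + ((w a - z a) / (2 * w a)) • Rf a p = update p a (z a) := by
          funext j
          rw [Pi.add_apply, Pi.smul_apply, Pi.smul_apply, smul_eq_mul, smul_eq_mul]
          unfold Rf
          by_cases h : j = a
          · subst h
            rw [update_self, update_self, hpa]
            field_simp
            ring
          · rw [update_of_ne h, update_of_ne h, ← add_mul, hs, one_mul]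
        rwa [h4] at h3
  have h := key Finset.univ
  simpa using h

theorem closed_Pol {n : ℕ} (K : Set (Fin n → ℝ)) : IsClosed (Pol K) := by
  have h : Pol K = ⋂ x ∈ K, {y : Fin n → ℝ | ∑ j, x j * y j ≤ 1} := by
    ext y
    simp only [mem_iInter]
    rfl
  rw [h]
  refine isClosed_biInter fun x _ => isClosed_le ?_ continuous_const
  exact continuous_finsetSum _ fun j _ => continuous_const.mul (continuous_apply j)

theorem closed_Bal (n : ℕ) : IsClosed (Bal n) :=
  isClosed_le (continuous_finsetSum _ fun j _ => (continuous_apply j).pow 2) continuous_const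

theorem ind_Rf {n : ℕ} {A : Set (Fin n → ℝ)} (hA : Unc A) (i : Fin n) (x : Fin n → ℝ) :
    A.indicator (fun _ => (1 : ℝ≥0∞)) (Rf i x) = A.indicator (fun _ => (1 : ℝ≥0∞)) x := by
  by_cases h : x ∈ A
  · rw [indicator_of_mem h, indicator_of_mem ((Rf_mem hA i x).2 h)]
  · rw [indicator_of_notMem h, indicator_of_notMem fun h' => h ((Rf_mem hA i x).1 h')]

theorem unc : S_unc := by
  intro hM n K T hKm hKu hTm hTc hTu
  have mK : MeasurableSet (K ∩ T) := hKm.inter hTm
  have mP : MeasurableSet (Pol K ∩ T) := (closed_Pol K).measurableSet.inter hTm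
  have mB : MeasurableSet (Bal n ∩ T) := (closed_Bal n).measurableSet.inter hTm
  have h := hM n ((K ∩ T).indicator fun _ => 1) ((Pol K ∩ T).indicator fun _ => 1)
    ((Bal n ∩ T).indicator fun _ => 1) (measurable_const.indicator mK) (measurable_const.indicator mP)
    (measurable_const.indicator mB) (ind_Rf (unc_inter hKu hTu))
    (ind_Rf (unc_inter (unc_Pol hKu) hTu)) (ind_Rf (unc_inter (unc_Bal n) hTu)) ?_
  · rw [lintegral_indicator mK, lintegral_indicator mP, lintegral_indicator mB, setLIntegral_one,
      setLIntegral_one, setLIntegral_one] at h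
    exact h
  · intro x y hx hy
    by_cases h1 : x ∈ K ∩ T
    · by_cases h2 : y ∈ Pol K ∩ T
      · have h3 : (fun i => Real.sqrt (x i * y i)) ∈ Bal n ∩ T := by
          constructor
          · show ∑ j, Real.sqrt (x j * y j) ^ 2 ≤ 1
            rw [Finset.sum_congr rfl fun j _ => Real.sq_sqrt (mul_nonneg (hx j).le (hy j).le)]
            exact h2.1 x h1.1
          · have hw : (fun i => (x i + y i) / 2) ∈ T := by
              have h4 := hTc h1.2 h2.2 (show (0 : ℝ) ≤ 1 / 2 by norm_num)
                (show (0 : ℝ) ≤ 1 / 2 by norm_num) (by norm_num)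
              have h5 : (1 / 2 : ℝ) • x + (1 / 2 : ℝ) • y = fun i => (x i + y i) / 2 := by
                funext i
                rw [Pi.add_apply, Pi.smul_apply, Pi.smul_apply, smul_eq_mul, smul_eq_mul]
                ring
              rwa [h5] at h4
            refine box hTc hTu hw fun i => ?_
            have hxi := hx i
            have hyi := hy i
            show |Real.sqrt (x i * y i)| ≤ (x i + y i) / 2
            rw [abs_of_nonneg (Real.sqrt_nonneg _)]
            refine Real.sqrt_le_iff.2 ⟨by linarith, ?_⟩
            nlinarith [sq_nonneg (x i - y i)]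
        rw [indicator_of_mem h1, indicator_of_mem h2, indicator_of_mem h3]
        norm_num
      · rw [indicator_of_notMem h2, mul_zero]
        exact zero_le
    · rw [indicator_of_notMem h1, zero_mul]
      exact zero_le

end Pool.Agent.H412.SN9
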